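import Pool.Agent.Helper70.SK.Stmts2

/-! Module EXT: extension of a sticky map from a subset of the cube, up to a given scale. -/

namespace Pool.Agent.Helper70.SK

open Finset Pool.Agent.Helper70.DK

/-- two reals with the same floor after multiplication by `b` have the same floor -/
theorem ext_floor {b : ℕ} (hb : 1 ≤ b) {u v : ℝ} (h : ⌊(b : ℝ) * u⌋ = ⌊(b : ℝ) * v⌋) : ⌊u⌋ = ⌊v⌋ := by
  have hb0 : (0 : ℝ) < b := by exact_mod_cast hb
  have key : ∀ w : ℝ, ∀ n : ℤ, n ≤ ⌊w⌋ ↔ (b : ℤ) * n ≤ ⌊(b : ℝ) * w⌋ := by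
    intro w n
    rw [Int.le_floor, Int.le_floor]
    push_cast
    constructor
    · intro h; exact mul_le_mul_of_nonneg_left h hb0.le
    · intro h; exact le_of_mul_le_mul_left h hb0
  apply le_antisymm
  · rw [key v, ← h, ← key u]
  · rw [key u, h, ← key v]

/-- cells are nested -/
theorem ext_nest {m b : ℕ} (hb : 1 ≤ b) {x y : Fin m → ℝ} {j k : ℕ} (hjk : j ≤ k)
    (h : ∀ c, ⌊(b : ℝ) ^ k * x c⌋ = ⌊(b : ℝ) ^ k * y c⌋) (c : Fin m) :
    ⌊(b : ℝ) ^ j * x c⌋ = ⌊(b : ℝ) ^ j * y c⌋ := by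
  induction k, hjk using Nat.le_induction with
  | base => exact h c
  | succ k hk ih =>
    apply ih
    intro c'
    apply ext_floor hb
    have := h c'
    rw [pow_succ', mul_assoc, mul_assoc] at this
    exact this

/-- the cell of level `j` of `x` meets `D` -/
def ext_P {m : ℕ} (b : ℕ) (D : Set (Fin m → ℝ)) (x : Fin m → ℝ) (j : ℕ) : Prop :=
  ∃ y, y ∈ D ∧ ∀ c, ⌊(b : ℝ) ^ j * y c⌋ = ⌊(b : ℝ) ^ j * x c⌋

open Classical in
/-- the level of `x` -/
noncomputable def ext_lev {m : ℕ} (b L : ℕ) (D : Set (Fin m → ℝ)) (x : Fin m → ℝ) : ℕ :=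
  Nat.findGreatest (ext_P b D x) L

open Classical in
/-- a point of `D` in the cell `z` of level `j` -/
noncomputable def ext_d {m : ℕ} (b : ℕ) (D : Set (Fin m → ℝ)) (j : ℕ) (z : Fin m → ℤ) : Fin m → ℝ :=
  if h : ∃ y, y ∈ D ∧ ∀ c, ⌊(b : ℝ) ^ j * y c⌋ = z c then Classical.choose h else 0

theorem ext_d_spec {m : ℕ} {b : ℕ} {D : Set (Fin m → ℝ)} {x : Fin m → ℝ} {j : ℕ}
    (h : ext_P b D x j) : ext_d b D j (fun c => ⌊(b : ℝ) ^ j * x c⌋) ∈ D ∧
      ∀ c, ⌊(b : ℝ) ^ j * ext_d b D j (fun c => ⌊(b : ℝ) ^ j * x c⌋) c⌋ = ⌊(b : ℝ) ^ j * x c⌋ := by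
  have h' : ∃ y, y ∈ D ∧ ∀ c, ⌊(b : ℝ) ^ j * y c⌋ =
      (fun c => ⌊(b : ℝ) ^ j * x c⌋ : Fin m → ℤ) c := h
  unfold ext_d
  rw [dif_pos h']
  exact Classical.choose_spec h'

/-- the extension -/
noncomputable def ext_a {m : ℕ} (b L : ℕ) (D : Set (Fin m → ℝ)) (a : (Fin m → ℝ) → Fin m → ℝ) :
    (Fin m → ℝ) → Fin m → ℝ :=
  fun x => a (ext_d b D (ext_lev b L D x) (fun c => ⌊(b : ℝ) ^ (ext_lev b L D x) * x c⌋))

theorem ext_P0 {m b : ℕ} {D : Set (Fin m → ℝ)} (hD : D ⊆ cube m) (hne : D.Nonempty)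
    {x : Fin m → ℝ} (hx : x ∈ cube m) : ext_P b D x 0 := by
  obtain ⟨y, hy⟩ := hne
  refine ⟨y, hy, fun c => ?_⟩
  have h1 := hD hy c
  have h2 := hx c
  rw [pow_zero, one_mul, one_mul, Int.floor_eq_zero_iff.2 ⟨h1.1, h1.2⟩,
    Int.floor_eq_zero_iff.2 ⟨h2.1, h2.2⟩]

theorem ext_main {m b L : ℕ} {R : ℝ} {D : Set (Fin m → ℝ)} {a : (Fin m → ℝ) → Fin m → ℝ}
    (hb : 1 ≤ b) (hR : 0 ≤ R) (hD : D ⊆ cube m) (hne : D.Nonempty) (ha : StickyOn b R D a)
    {k : ℕ} {x y : Fin m → ℝ} (hx : x ∈ cube m) (hy : y ∈ cube m)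
    (h : ∀ c, ⌊(b : ℝ) ^ k * x c⌋ = ⌊(b : ℝ) ^ k * y c⌋) (c : Fin m) :
    |ext_a b L D a x c - ext_a b L D a y c| * (b : ℝ) ^ k ≤ R := by
  classical
  have hmono : ∀ (z : Fin m → ℝ) (i j : ℕ), i ≤ j → ext_P b D z j → ext_P b D z i := by
    rintro z i j hij ⟨w, hw, hw'⟩
    exact ⟨w, hw, fun c => ext_nest hb hij hw' c⟩
  have htr : ∀ j, j ≤ k → (ext_P b D x j ↔ ext_P b D y j) := by
    intro j hj
    constructor
    · rintro ⟨w, hw, hw'⟩
      exact ⟨w, hw, fun c => (hw' c).trans (ext_nest hb hj h c)⟩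
    · rintro ⟨w, hw, hw'⟩
      exact ⟨w, hw, fun c => (hw' c).trans (ext_nest hb hj h c).symm⟩
  have hsx : ext_P b D x (ext_lev b L D x) :=
    Nat.findGreatest_spec (P := ext_P b D x) (Nat.zero_le L) (ext_P0 hD hne hx)
  have hsy : ext_P b D y (ext_lev b L D y) :=
    Nat.findGreatest_spec (P := ext_P b D y) (Nat.zero_le L) (ext_P0 hD hne hy)
  have hlx : ext_lev b L D x ≤ L := Nat.findGreatest_le L
  have hly : ext_lev b L D y ≤ L := Nat.findGreatest_le L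
  have hgx : ∀ j, j ≤ L → ext_P b D x j → j ≤ ext_lev b L D x := fun j hj hp =>
    Nat.le_findGreatest hj hp
  have hgy : ∀ j, j ≤ L → ext_P b D y j → j ≤ ext_lev b L D y := fun j hj hp =>
    Nat.le_findGreatest hj hp
  by_cases hk : k ≤ L ∧ ext_P b D x k
  · obtain ⟨hkL, hkx⟩ := hk
    have hky := (htr k le_rfl).1 hkx
    have d1 := ext_d_spec hsx
    have d2 := ext_d_spec hsy
    have e1 := hgx k hkL hkx
    have e2 := hgy k hkL hky
    refine ha k _ d1.1 _ d2.1 ?_ c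
    intro c'
    rw [ext_nest hb e1 d1.2 c', ext_nest hb e2 d2.2 c', h c']
  · have hle : ∀ j, j ≤ L → ext_P b D x j → j ≤ k := by
      intro j hj hp
      by_contra hlt
      exact hk ⟨by omega, hmono x k j (by omega) hp⟩
    have hle' : ∀ j, j ≤ L → ext_P b D y j → j ≤ k := by
      intro j hj hp
      by_contra hlt
      exact hk ⟨by omega, (htr k le_rfl).2 (hmono y k j (by omega) hp)⟩
    have hxk := hle _ hlx hsx
    have hyk := hle' _ hly hsy
    have he : ext_lev b L D x = ext_lev b L D y := by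
      apply le_antisymm
      · exact hgy _ hlx ((htr _ hxk).1 hsx)
      · exact hgx _ hly ((htr _ hyk).2 hsy)
    have hz : (fun c => ⌊(b : ℝ) ^ (ext_lev b L D x) * x c⌋ : Fin m → ℤ) =
        fun c => ⌊(b : ℝ) ^ (ext_lev b L D y) * y c⌋ := by
      funext c'
      rw [ext_nest hb hxk h c', he]
    have : ext_a b L D a x = ext_a b L D a y := by
      unfold ext_a
      rw [hz, he]
    rw [this, sub_self, abs_zero, zero_mul]
    exact hR

theorem st_EXT : ST_EXT := by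
  classical
  intro m b L R D a hb hR hD hne ha
  have hb1 : 1 ≤ b := by omega
  refine ⟨ext_a b L D a, ?_, ?_⟩
  · intro j i hi x hx c
    have hbj : (0 : ℝ) < (b : ℝ) ^ j := by
      have : (0 : ℝ) < b := by exact_mod_cast hb1
      positivity
    unfold pat
    rw [if_pos hx]
    have h1 : (fun c' => (x c' + i c') / (b : ℝ) ^ j) ∈ cube m := by
      intro c'
      obtain ⟨a1, a2⟩ := hi c'
      obtain ⟨b1, b2⟩ := hx c'
      have a1' : (0 : ℝ) ≤ (i c' : ℝ) := by exact_mod_cast a1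
      have a2' : (i c' : ℝ) + 1 ≤ (b : ℝ) ^ j := by
        have : i c' + 1 ≤ ((b ^ j : ℕ) : ℤ) := a2
        exact_mod_cast this
      constructor
      · exact div_nonneg (by linarith) hbj.le
      · show (x c' + i c') / (b : ℝ) ^ j < 1
        rw [div_lt_one hbj]; linarith
    have h2 : (fun c' => (i c' : ℝ) / (b : ℝ) ^ j) ∈ cube m := by
      intro c'
      obtain ⟨a1, a2⟩ := hi c'
      have a1' : (0 : ℝ) ≤ (i c' : ℝ) := by exact_mod_cast a1
      have a2' : (i c' : ℝ) + 1 ≤ (b : ℝ) ^ j := by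
        have : i c' + 1 ≤ ((b ^ j : ℕ) : ℤ) := a2
        exact_mod_cast this
      constructor
      · exact div_nonneg a1' hbj.le
      · show (i c' : ℝ) / (b : ℝ) ^ j < 1
        rw [div_lt_one hbj]; linarith
    have h3 := ext_main (L := L) hb1 hR hD hne ha (k := j) h1 h2 (by
      intro c'
      obtain ⟨b1, b2⟩ := hx c'
      show ⌊(b : ℝ) ^ j * ((x c' + i c') / (b : ℝ) ^ j)⌋ = ⌊(b : ℝ) ^ j * ((i c' : ℝ) / (b : ℝ) ^ j)⌋
      rw [mul_div_cancel₀ _ hbj.ne', mul_div_cancel₀ _ hbj.ne', Int.floor_intCast,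
        Int.floor_add_intCast, Int.floor_eq_zero_iff.2 ⟨b1, b2⟩, zero_add]) c
    rw [abs_mul, abs_of_pos hbj, mul_comm]
    exact h3
  · intro x hx c
    have hPL : ext_P b D x L := ⟨x, hx, fun _ => rfl⟩
    have hlev : ext_lev b L D x = L :=
      le_antisymm (Nat.findGreatest_le L) (Nat.le_findGreatest le_rfl hPL)
    have d1 := ext_d_spec hPL
    unfold ext_a
    rw [hlev]
    exact ha L _ d1.1 _ hx d1.2 c

end Pool.Agent.Helper70.SK
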