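import Pool.Agent.Helper70.SK.Stmts3

/-! Module RUN: the adapted map. -/

namespace Pool.Agent.Helper70.SK

open Finset Pool.Agent.Helper70.DK

/-- grid membership -/
theorem run_gr {m N : ℕ} {x : Fin m → ℤ} : x ∈ gr m N ↔ ∀ c, 0 ≤ x c ∧ x c < (N : ℤ) := by
  unfold gr
  rw [Fintype.mem_piFinset]
  exact forall_congr' fun c => mem_Ico

theorem run_card (m N : ℕ) : (gr m N).card = N ^ m := by
  unfold gr
  rw [Fintype.card_piFinset]
  simp

open Classical in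
/-- the code of the digit `d` -/
noncomputable def runK {m : ℕ} (A : Finset (Fin m → ℤ)) (j : ℕ) (th : ℕ → Fin m → ℤ)
    (d : Fin m → ℤ) : ℕ :=
  if h : ∃ l, l < j ∧ (fun c => d c - th l c) ∈ A then Nat.find h + 1 else 0

open Classical in
/-- the digit of the adapted map -/
noncomputable def runD {m : ℕ} (A : Finset (Fin m → ℤ)) (j : ℕ) (th : ℕ → Fin m → ℤ)
    (d : Fin m → ℤ) : Fin m → ℤ :=
  if h : ∃ l, l < j ∧ (fun c => d c - th l c) ∈ A then (fun c => d c - th (Nat.find h) c)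
    else if h2 : A.Nonempty then h2.choose else 0

theorem runD_mem {m : ℕ} (A : Finset (Fin m → ℤ)) (hA : A.Nonempty) (j : ℕ)
    (th : ℕ → Fin m → ℤ) (d : Fin m → ℤ) : runD A j th d ∈ A := by
  classical
  unfold runD
  split_ifs with h
  · exact (Nat.find_spec h).2
  · exact hA.choose_spec

theorem runK_le {m : ℕ} (A : Finset (Fin m → ℤ)) (j : ℕ)
    (th : ℕ → Fin m → ℤ) (d : Fin m → ℤ) : runK A j th d ≤ j := by
  classical
  unfold runK
  split_ifs with h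
  · exact (Nat.find_spec h).1
  · exact Nat.zero_le j

theorem runK_ne {m : ℕ} (A : Finset (Fin m → ℤ)) (j : ℕ)
    (th : ℕ → Fin m → ℤ) (d : Fin m → ℤ) (hk : runK A j th d ≠ 0) (c : Fin m) :
    d c - runD A j th d c = th (runK A j th d - 1) c := by
  classical
  have h : ∃ l, l < j ∧ (fun c => d c - th l c) ∈ A := by
    by_contra h
    apply hk
    unfold runK
    rw [dif_neg h]
  have e1 : runK A j th d = Nat.find h + 1 := by
    unfold runK
    rw [dif_pos h]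
  have e2 : runD A j th d = fun c => d c - th (Nat.find h) c := by
    unfold runD
    rw [dif_pos h]
  rw [e1, e2, Nat.add_sub_cancel]
  ring

theorem runK_zero {m : ℕ} (A : Finset (Fin m → ℤ)) (j : ℕ)
    (th : ℕ → Fin m → ℤ) (d : Fin m → ℤ) (hk : runK A j th d = 0) :
    ∀ l < j, (fun c => d c - th l c) ∉ A := by
  classical
  intro l hl hmem
  have h : ∃ l, l < j ∧ (fun c => d c - th l c) ∈ A := ⟨l, hl, hmem⟩
  unfold runK at hk
  rw [dif_pos h] at hk
  omega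

/-- the states of the adapted map -/
noncomputable def runS {m : ℕ} {σ : Type} (B : ℕ) (A : ℕ → σ → Finset (Fin m → ℤ))
    (ch : ℕ → σ → (Fin m → ℤ) → σ) (jj : ℕ → σ → ℕ) (s0 : σ) (θ : ℕ → ℕ → Fin m → ℤ) :
    ℕ → (Fin m → ℤ) → σ
  | 0 => fun _ => s0
  | i + 1 => fun x => ch i (runS B A ch jj s0 θ i (cl B 1 x))
      (runD (A i (runS B A ch jj s0 θ i (cl B 1 x))) (jj i (runS B A ch jj s0 θ i (cl B 1 x))) (θ i)
        (fun c => x c - B * (cl B 1 x) c))

theorem runS_congr {m : ℕ} {σ : Type} (B : ℕ) (A : ℕ → σ → Finset (Fin m → ℤ))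
    (ch : ℕ → σ → (Fin m → ℤ) → σ) (jj : ℕ → σ → ℕ) (s0 : σ) (θ θ' : ℕ → ℕ → Fin m → ℤ) (i : ℕ)
    (h : ∀ k < i, θ k = θ' k) : runS B A ch jj s0 θ i = runS B A ch jj s0 θ' i := by
  induction i with
  | zero => rfl
  | succ i ih =>
    have e := ih fun k hk => h k (Nat.lt_succ_of_lt hk)
    funext x
    change ch i (runS B A ch jj s0 θ i (cl B 1 x)) _ = ch i (runS B A ch jj s0 θ' i (cl B 1 x)) _
    rw [e, h i (Nat.lt_succ_self i)]

theorem runS_good {m : ℕ} {σ : Type} (B n : ℕ) (G : ℕ → σ → Prop)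
    (A : ℕ → σ → Finset (Fin m → ℤ))
    (ch : ℕ → σ → (Fin m → ℤ) → σ) (jj : ℕ → σ → ℕ) (s0 : σ) (θ : ℕ → ℕ → Fin m → ℤ)
    (h0 : G 0 s0) (h1 : ∀ i < n, ∀ s, G i s → (A i s).Nonempty ∧ ∀ d ∈ A i s, G (i + 1) (ch i s d))
    (i : ℕ) (hi : i ≤ n) (x : Fin m → ℤ) : G i (runS B A ch jj s0 θ i x) := by
  induction i generalizing x with
  | zero => exact h0
  | succ i ih =>
    have g := ih (Nat.le_of_succ_le hi) (cl B 1 x)
    obtain ⟨g1, g2⟩ := h1 i (Nat.lt_of_succ_le hi) _ g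
    exact g2 _ (runD_mem _ g1 _ _ _)

/-- the good levels -/
def RunP {m : ℕ} {σ : Type} (B : ℕ) (A : ℕ → σ → Finset (Fin m → ℤ))
    (ch : ℕ → σ → (Fin m → ℤ) → σ) (jj : ℕ → σ → ℕ) (s0 : σ) (K : ℝ) (θ : ℕ → ℕ → Fin m → ℤ)
    (i : ℕ) : Prop :=
  ∑ y ∈ gr m (B ^ i), (((gr m B).filter (fun x => ∀ l < jj i (runS B A ch jj s0 θ i y),
    (fun c => x c - θ i l c) ∉ A i (runS B A ch jj s0 θ i y))).card : ℝ) ≤
    Real.exp (-K) * ((gr m (B ^ i)).card * (B : ℝ) ^ m)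

theorem run_exists (hC : ST_COVS) (m B n J : ℕ) (σ : Type) (G : ℕ → σ → Prop)
    (A : ℕ → σ → Finset (Fin m → ℤ))
    (ch : ℕ → σ → (Fin m → ℤ) → σ) (jj : ℕ → σ → ℕ) (s0 : σ) (K : ℝ) (hB : 1 ≤ B) (hK : 0 < K)
    (h0 : G 0 s0)
    (h : ∀ i < n, ∀ s, G i s → A i s ⊆ gr m B ∧ (A i s).Nonempty ∧ jj i s ≤ J ∧
      K * 2 ^ m * (B : ℝ) ^ m ≤ (jj i s : ℝ) * ((A i s).card : ℝ) ∧ ∀ d ∈ A i s, G (i + 1) (ch i s d))
    (n₀ : ℕ) (hn : n₀ ≤ n) : ∃ θ : ℕ → ℕ → Fin m → ℤ, ∀ i < n₀, RunP B A ch jj s0 K θ i := by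
  induction n₀ with
  | zero => exact ⟨fun _ _ _ => 0, fun i hi => absurd hi (Nat.not_lt_zero i)⟩
  | succ n₀ ih =>
    obtain ⟨θ, hθ⟩ := ih (Nat.le_of_succ_le hn)
    have hgood : ∀ y, G n₀ (runS B A ch jj s0 θ n₀ y) := fun y =>
      runS_good B n G A ch jj s0 θ h0 (fun i hi s hs => ⟨(h i hi s hs).2.1, (h i hi s hs).2.2.2.2⟩)
        n₀ (Nat.le_of_succ_le hn) y
    obtain ⟨θ', hθ'⟩ := hC m B J (Fin m → ℤ) (gr m (B ^ n₀))
      (fun y => A n₀ (runS B A ch jj s0 θ n₀ y)) (fun y => jj n₀ (runS B A ch jj s0 θ n₀ y)) K hB hK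
      (fun y _ => ⟨(h n₀ (Nat.lt_of_succ_le hn) _ (hgood y)).1,
        (h n₀ (Nat.lt_of_succ_le hn) _ (hgood y)).2.2.1,
        (h n₀ (Nat.lt_of_succ_le hn) _ (hgood y)).2.2.2.1⟩)
    refine ⟨Function.update θ n₀ θ', ?_⟩
    intro i hi
    have e1 : ∀ k < n₀, Function.update θ n₀ θ' k = θ k := fun k hk =>
      Function.update_of_ne (by omega) _ _
    rcases Nat.lt_succ_iff_lt_or_eq.mp hi with hi | hi
    · have e2 : runS B A ch jj s0 (Function.update θ n₀ θ') i = runS B A ch jj s0 θ i :=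
        runS_congr B A ch jj s0 _ _ i fun k hk => e1 k (hk.trans hi)
      unfold RunP
      rw [e2, e1 i hi]
      exact hθ i hi
    · subst hi
      have e2 : runS B A ch jj s0 (Function.update θ i θ') i = runS B A ch jj s0 θ i :=
        runS_congr B A ch jj s0 _ _ i e1
      unfold RunP
      rw [e2, Function.update_self]
      exact hθ'

theorem run_count {m : ℕ} {σ : Type} (B : ℕ) (A : ℕ → σ → Finset (Fin m → ℤ))
    (ch : ℕ → σ → (Fin m → ℤ) → σ) (jj : ℕ → σ → ℕ) (s0 : σ) (K : ℝ) (hB : 1 ≤ B)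
    (θ : ℕ → ℕ → Fin m → ℤ)
    (i : ℕ) (hP : RunP B A ch jj s0 K θ i) :
    (((gr m (B ^ (i + 1))).filter (fun x => runK (A i (runS B A ch jj s0 θ i (cl B 1 x)))
      (jj i (runS B A ch jj s0 θ i (cl B 1 x))) (θ i) (fun c => x c - B * (cl B 1 x) c) = 0)).card : ℝ) ≤
        Real.exp (-K) * (B : ℝ) ^ (m * (i + 1)) := by
  classical
  set S := (gr m (B ^ (i + 1))).filter (fun x => runK (A i (runS B A ch jj s0 θ i (cl B 1 x)))
      (jj i (runS B A ch jj s0 θ i (cl B 1 x))) (θ i) (fun c => x c - B * (cl B 1 x) c) = 0) with hS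
  have hBz : (0 : ℤ) < (B : ℤ) := by exact_mod_cast hB
  have hclc : ∀ (x : Fin m → ℤ) (c : Fin m), cl B 1 x c = x c / (B : ℤ) := by
    intro x c
    unfold cl
    rw [pow_one]
  have hmaps : ∀ x ∈ S, cl B 1 x ∈ gr m (B ^ i) := by
    intro x hx
    rw [hS, mem_filter, run_gr] at hx
    rw [run_gr]
    intro c
    rw [hclc]
    obtain ⟨hx1, hx2⟩ := hx.1 c
    refine ⟨Int.ediv_nonneg hx1 hBz.le, ?_⟩
    rw [Int.ediv_lt_iff_lt_mul hBz]
    push_cast at hx2 ⊢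
    rw [pow_succ] at hx2
    exact hx2
  have hcard := card_eq_sum_card_fiberwise (f := fun x => cl B 1 x) (s := S) (t := gr m (B ^ i)) hmaps
  have hfib : ∀ y ∈ gr m (B ^ i), (S.filter (fun x => cl B 1 x = y)).card ≤
      ((gr m B).filter (fun x => ∀ l < jj i (runS B A ch jj s0 θ i y),
        (fun c => x c - θ i l c) ∉ A i (runS B A ch jj s0 θ i y))).card := by
    intro y _
    refine card_le_card_of_injOn (fun x c => x c - B * y c) ?_ ?_
    · intro x hx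
      have hx' : x ∈ S.filter (fun x => cl B 1 x = y) := hx
      rw [mem_filter] at hx'
      obtain ⟨hxS, hxy⟩ := hx'
      rw [hS, mem_filter, hxy] at hxS
      refine mem_coe.mpr (mem_filter.mpr ⟨?_, runK_zero _ _ _ _ hxS.2⟩)
      rw [run_gr]
      intro c
      have e : y c = x c / (B : ℤ) := by rw [← hxy, hclc]
      have e1 := Int.emod_add_mul_ediv (x c) B
      have e2 := Int.emod_nonneg (x c) hBz.ne'
      have e3 := Int.emod_lt_of_pos (x c) hBz
      change 0 ≤ x c - B * y c ∧ x c - B * y c < B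
      rw [e]
      constructor <;> linarith
    · intro x _ x' _ hxx
      funext c
      have := congrFun hxx c
      change x c - B * y c = x' c - B * y c at this
      linarith
  have h1 : (S.card : ℝ) ≤ ∑ y ∈ gr m (B ^ i),
      (((gr m B).filter (fun x => ∀ l < jj i (runS B A ch jj s0 θ i y),
        (fun c => x c - θ i l c) ∉ A i (runS B A ch jj s0 θ i y))).card : ℝ) := by
    rw [hcard]
    push_cast
    refine sum_le_sum fun y hy => ?_
    exact_mod_cast hfib y hy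
  refine h1.trans ?_
  unfold RunP at hP
  refine hP.trans (le_of_eq ?_)
  rw [run_card]
  push_cast
  rw [← pow_mul, ← pow_add]
  congr 2
  ring

theorem st_RUN (hC : ST_COVS) : ST_RUN := by
  intro m B n J σ G A ch jj s0 K hB hK h0 h
  obtain ⟨θ, hθ⟩ := run_exists hC m B n J σ G A ch jj s0 K hB hK h0 h n le_rfl
  have hgood : ∀ i ≤ n, ∀ y, G i (runS B A ch jj s0 θ i y) := fun i hi y =>
    runS_good B n G A ch jj s0 θ h0 (fun i hi s hs => ⟨(h i hi s hs).2.1, (h i hi s hs).2.2.2.2⟩)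
      i hi y
  refine ⟨runS B A ch jj s0 θ,
    fun i x => runK (A i (runS B A ch jj s0 θ i (cl B 1 x)))
      (jj i (runS B A ch jj s0 θ i (cl B 1 x))) (θ i) (fun c => x c - B * (cl B 1 x) c),
    fun i x => runD (A i (runS B A ch jj s0 θ i (cl B 1 x)))
      (jj i (runS B A ch jj s0 θ i (cl B 1 x))) (θ i) (fun c => x c - B * (cl B 1 x) c),
    fun i k => θ i (k - 1), fun x => rfl, ?_, ?_⟩
  · intro i hi x _
    have g := hgood i hi.le (cl B 1 x)
    refine ⟨g, runD_mem _ (h i hi _ g).2.1 _ _ _, rfl, runK_le _ _ _ _, ?_⟩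
    intro hk c
    exact runK_ne _ _ _ _ hk c
  · intro i hi
    exact run_count B A ch jj s0 K hB θ i (hθ i hi)

end Pool.Agent.Helper70.SK
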